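import Mathlib

namespace Pool.Agent.X7.Pseudo
open Finset

/-- Data extracted from the complement `H` of a pseudo 16-regular graph on 20 vertices:
`N i` is the `H`-neighbourhood of `i`, `x i = deg_H i - 2`. -/
structure Sys where
  N : Fin 20 → Finset (Fin 20)
  x : Fin 20 → ℤ
  s : ℤ
  symm : ∀ i j, j ∈ N i → i ∈ N j
  irr : ∀ i, i ∉ N i
  deg : ∀ i, ((N i).card : ℤ) = x i + 2
  sum : ∀ i, ∑ j ∈ N i, x j = s
  tot : ∑ i, x i = s + 17
  le16 : ∀ i, x i ≤ 16
  nr : ∃ i, x i ≠ 1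
  odd : s % 2 = 1

namespace Sys
variable (S : Sys)

lemma swap (f : Fin 20 → Fin 20 → ℤ) (A B : Finset (Fin 20)) :
    ∑ i ∈ A, ∑ j ∈ (S.N i) ∩ B, f i j = ∑ j ∈ B, ∑ i ∈ (S.N j) ∩ A, f i j := by
  apply Finset.sum_comm'
  intro i j
  simp only [mem_inter]
  constructor
  · rintro ⟨h1, h2, h3⟩; exact ⟨⟨S.symm _ _ h2, h1⟩, h3⟩
  · rintro ⟨⟨h1, h2⟩, h3⟩; exact ⟨h2, S.symm _ _ h1, h3⟩

lemma swapcard (A B : Finset (Fin 20)) :
    ∑ i ∈ A, (((S.N i) ∩ B).card : ℤ) = ∑ j ∈ B, (((S.N j) ∩ A).card : ℤ) := by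
  have := S.swap (fun _ _ => 1) A B
  simpa using this

lemma sq : ∑ i, (S.x i) ^ 2 = 18 * S.s - 34 := by
  have h := S.swap (fun _ j => S.x j) univ univ
  simp only [inter_univ] at h
  have h1 : ∑ i : Fin 20, ∑ j ∈ S.N i, S.x j = 20 * S.s := by
    simp only [S.sum]; simp
  have h2 : ∑ j : Fin 20, ∑ i ∈ S.N j, S.x j = ∑ j : Fin 20, ((S.x j) ^ 2 + 2 * S.x j) := by
    apply Finset.sum_congr rfl
    intro j _
    rw [Finset.sum_const, nsmul_eq_mul, S.deg]; ring
  rw [h1, h2, Finset.sum_add_distrib, ← Finset.mul_sum, S.tot] at h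
  linarith

lemma s5 : 5 ≤ S.s := by
  have h1 : ∑ i, (S.x i - 1) ^ 2 = 16 * S.s - 48 := by
    have : ∀ i, (S.x i - 1) ^ 2 = (S.x i) ^ 2 - 2 * S.x i + 1 := fun i => by ring
    simp only [this, Finset.sum_add_distrib, Finset.sum_sub_distrib, ← Finset.mul_sum, S.tot, S.sq]
    simp; ring
  obtain ⟨i, hi⟩ := S.nr
  have h2 : 0 < ∑ i, (S.x i - 1) ^ 2 := by
    apply Finset.sum_pos' (fun i _ => sq_nonneg _) ⟨i, mem_univ _, _⟩
    have : S.x i - 1 ≠ 0 := sub_ne_zero.mpr hi
    positivity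
  have := S.odd
  omega

lemma lb (i : Fin 20) : -1 ≤ S.x i := by
  have h := S.deg i
  have h5 := S.s5
  by_contra hc
  have : (S.N i).card = 0 := by omega
  rw [Finset.card_eq_zero] at this
  have h2 := S.sum i
  rw [this] at h2
  simp at h2
  omega

lemma leaf {i : Fin 20} (h : S.x i = -1) : ∃ u, S.N i = {u} ∧ S.x u = S.s := by
  have h1 := S.deg i
  have : (S.N i).card = 1 := by omega
  obtain ⟨u, hu⟩ := Finset.card_eq_one.mp this
  refine ⟨u, hu, ?_⟩
  have := S.sum i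
  rw [hu] at this
  simpa using this

lemma zero {i : Fin 20} (h : S.x i = 0) :
    ∃ u v, u ≠ v ∧ S.N i = {u, v} ∧ S.x u + S.x v = S.s := by
  have h1 := S.deg i
  have : (S.N i).card = 2 := by omega
  obtain ⟨u, v, huv, hu⟩ := Finset.card_eq_two.mp this
  refine ⟨u, v, huv, hu, ?_⟩
  have := S.sum i
  rw [hu, Finset.sum_pair huv] at this
  exact this

/-- if `i` is a zero with two distinct neighbours `u`, `v`, these are all of them -/
lemma zero_pair {i u v : Fin 20} (h : S.x i = 0) (huv : u ≠ v) (hu : u ∈ S.N i) (hv : v ∈ S.N i) :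
    S.x u + S.x v = S.s ∧ ∀ j ∈ S.N i, j = u ∨ j = v := by
  have h1 := S.deg i
  have hc : (S.N i).card = 2 := by omega
  have hsub : ({u, v} : Finset (Fin 20)) ⊆ S.N i := by
    intro j hj
    simp only [mem_insert, mem_singleton] at hj
    rcases hj with rfl | rfl <;> assumption
  have heq : ({u, v} : Finset (Fin 20)) = S.N i := by
    apply Finset.eq_of_subset_of_card_le hsub
    rw [hc, Finset.card_pair huv]
  constructor
  · have := S.sum i
    rw [← heq, Finset.sum_pair huv] at this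
    exact this
  · intro j hj
    rw [← heq] at hj
    simpa using hj

lemma le_s (u : Fin 20) : S.x u ≤ S.s := by
  by_contra hc
  push Not at hc
  have h5 := S.s5
  have key : ∀ j ∈ S.N u, 1 ≤ S.x j := by
    intro j hj
    have hju := S.symm _ _ hj
    by_contra h1
    push Not at h1
    have hl := S.lb j
    have : S.x j = -1 ∨ S.x j = 0 := by omega
    rcases this with h2 | h2
    · obtain ⟨w, hw, hws⟩ := S.leaf h2
      rw [hw] at hju
      simp only [mem_singleton] at hju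
      rw [hju] at hc; omega
    · obtain ⟨w, v, hwv, hN, hsum⟩ := S.zero h2
      have hcase : ∃ w, S.x w + S.x u = S.s ∧ w ∈ S.N j := by
        rw [hN] at hju ⊢
        simp only [mem_insert, mem_singleton] at hju
        rcases hju with h | h
        · exact ⟨v, by rw [h]; linarith, by simp⟩
        · exact ⟨w, by rw [h]; linarith, by simp⟩
      obtain ⟨w, hw, hwj⟩ := hcase
      have hlw := S.lb w
      have h3 : S.x w = -1 := by omega
      obtain ⟨w', hw', hws'⟩ := S.leaf h3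
      have hjw := S.symm _ _ hwj
      rw [hw'] at hjw
      simp only [mem_singleton] at hjw
      rw [← hjw] at hws'; omega
  have h1 : ∑ j ∈ S.N u, (1 : ℤ) ≤ ∑ j ∈ S.N u, S.x j := Finset.sum_le_sum key
  rw [S.sum] at h1
  simp only [sum_const, nsmul_eq_mul, mul_one] at h1
  rw [S.deg] at h1
  omega

lemma gsum : ∑ i, (S.x i - 1) * (S.x i - 2) = 15 * S.s - 45 := by
  have : ∀ i, (S.x i - 1) * (S.x i - 2) = (S.x i) ^ 2 - 3 * S.x i + 2 := fun i => by ring
  simp only [this, Finset.sum_add_distrib, Finset.sum_sub_distrib, ← Finset.mul_sum, S.tot, S.sq]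
  simp; ring

/-- at most one vertex of value `s` -/
lemma top_unique {u v : Fin 20} (hu : S.x u = S.s) (hv : S.x v = S.s) : u = v := by
  by_contra huv
  have h1 : ∀ i, 0 ≤ (S.x i) ^ 2 - S.x i := by
    intro i
    rcases le_or_gt (S.x i) 0 with h | h
    · nlinarith
    · nlinarith
  have h2 : ∑ i ∈ ({u, v} : Finset (Fin 20)), ((S.x i) ^ 2 - S.x i) ≤ ∑ i, ((S.x i) ^ 2 - S.x i) :=
    Finset.sum_le_sum_of_subset_of_nonneg (subset_univ _) (fun i _ _ => h1 i)
  rw [Finset.sum_pair huv, Finset.sum_sub_distrib, S.sq, S.tot, hu, hv] at h2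
  nlinarith [sq_nonneg (4 * S.s - 19)]

end Sys
end Pool.Agent.X7.Pseudo
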