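import Pool.Agent.X7.Pseudo.Top

namespace Pool.Agent.X7.Pseudo
open Finset
namespace Sys
variable (S : Sys)

/-- heavy vertices -/
def Hv : Finset (Fin 20) := univ.filter (fun u => S.s + 1 ≤ 2 * S.x u)
/-- zeros -/
def Zs : Finset (Fin 20) := univ.filter (fun u => S.x u = 0)
/-- vertices without heavy neighbours -/
def R : Finset (Fin 20) := univ.filter (fun u => (S.N u ∩ S.Hv) = ∅)

lemma mem_Hv {u : Fin 20} : u ∈ S.Hv ↔ S.s + 1 ≤ 2 * S.x u := by simp [Hv]
lemma mem_Zs {u : Fin 20} : u ∈ S.Zs ↔ S.x u = 0 := by simp [Zs]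
lemma mem_R {u : Fin 20} : u ∈ S.R ↔ (S.N u ∩ S.Hv) = ∅ := by simp [R]

lemma light {u : Fin 20} (h : u ∉ S.Hv) : 2 * S.x u ≤ S.s - 1 := by
  rw [mem_Hv] at h
  have := S.odd
  omega

lemma hd_le (v : Fin 20) : (S.N v ∩ S.Hv).card ≤ 1 := by
  have h5 := S.s5
  have h1 : ∑ j ∈ S.N v ∩ S.Hv, (S.s + 1) ≤ ∑ j ∈ S.N v ∩ S.Hv, (2 * S.x j) := by
    apply Finset.sum_le_sum
    intro j hj
    exact S.mem_Hv.mp (mem_inter.mp hj).2
  have h2 : ∑ j ∈ S.N v ∩ S.Hv, (2 * S.x j) ≤ ∑ j ∈ S.N v, (2 * S.x j) := by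
    apply Finset.sum_le_sum_of_subset_of_nonneg inter_subset_left
    intro j _ _
    have := S.nonneg j
    omega
  rw [← Finset.mul_sum, ← Finset.mul_sum, S.sum] at h2
  rw [sum_const, nsmul_eq_mul, ← Finset.mul_sum] at h1
  by_contra hc
  push Not at hc
  have : (2 : ℤ) ≤ ((S.N v ∩ S.Hv).card : ℤ) := by exact_mod_cast hc
  nlinarith

lemma hd_zero {y : Fin 20} (hy : S.x y = 0) : (S.N y ∩ S.Hv).Nonempty := by
  rw [Finset.nonempty_iff_ne_empty]
  intro h
  have h5 := S.s5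
  have h1 : ∑ j ∈ S.N y, (2 * S.x j) ≤ ∑ j ∈ S.N y, (S.s - 1) := by
    apply Finset.sum_le_sum
    intro j hj
    apply S.light
    intro hj2
    have : j ∈ S.N y ∩ S.Hv := mem_inter.mpr ⟨hj, hj2⟩
    rw [h] at this
    simp at this
  rw [← Finset.mul_sum, S.sum, sum_const, nsmul_eq_mul, S.deg, hy] at h1
  linarith

lemma R_pos {y : Fin 20} (hy : y ∈ S.R) : 1 ≤ S.x y := by
  have := S.nonneg y
  by_contra hc
  have h0 : S.x y = 0 := by omega
  have := S.hd_zero h0
  rw [S.mem_R.mp hy] at this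
  simp at this

lemma zeros_le (v : Fin 20) : ((S.N v ∩ S.Zs).card : ℤ) ≤ S.x v := by
  have h5 := S.s5
  have h1 : ∑ j ∈ S.N v \ S.Zs, S.x j = S.s := by
    have h2 := Finset.sum_inter_add_sum_sdiff (S.N v) S.Zs S.x
    rw [S.sum] at h2
    have h3 : ∑ j ∈ S.N v ∩ S.Zs, S.x j = 0 := by
      apply Finset.sum_eq_zero
      intro j hj
      exact S.mem_Zs.mp (mem_inter.mp hj).2
    linarith
  have h2 : ∑ j ∈ S.N v \ S.Zs, S.x j ≤ ∑ j ∈ S.N v \ S.Zs, (S.s - 1) := by
    apply Finset.sum_le_sum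
    intro j _
    have := S.lt_s j
    omega
  rw [h1, sum_const, nsmul_eq_mul] at h2
  have h3 := Finset.card_inter_add_card_sdiff (S.N v) S.Zs
  have h4 := S.deg v
  by_contra hc
  push Not at hc
  have h6 : ((S.N v \ S.Zs).card : ℤ) ≤ 1 := by
    have : ((S.N v ∩ S.Zs).card : ℤ) + ((S.N v \ S.Zs).card : ℤ) = ((S.N v).card : ℤ) := by
      exact_mod_cast h3
    omega
  nlinarith

lemma exists_zero : ∃ y, S.x y = 0 := by
  by_contra hc
  push Not at hc
  have h1 : ∀ i, 1 ≤ S.x i := by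
    intro i
    have := S.nonneg i
    have := hc i
    omega
  obtain ⟨u, hu⟩ := S.nr
  have hall : ∀ i, i ≠ u → u ∈ S.N i := by
    intro i hi
    by_contra hn
    -- sum over the complement of N i ∪ {i}
    have hsplit : ∑ j, (S.x j - 1) = ∑ j ∈ S.N i, (S.x j - 1) + ∑ j ∈ univ \ S.N i, (S.x j - 1) := by
      have := Finset.sum_inter_add_sum_sdiff univ (S.N i) (fun j => S.x j - 1)
      rw [univ_inter] at this
      linarith
    have hi2 : i ∈ univ \ S.N i := by simp [S.irr]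
    rw [← Finset.add_sum_erase _ _ hi2, Finset.sum_sub_distrib, S.tot, Finset.sum_sub_distrib, S.sum] at hsplit
    simp only [sum_const, nsmul_eq_mul, mul_one] at hsplit
    rw [S.deg] at hsplit
    simp only [card_univ, Fintype.card_fin] at hsplit
    push_cast at hsplit
    have h0 : ∑ j ∈ (univ \ S.N i).erase i, (S.x j - 1) = 0 := by linarith
    rw [Finset.sum_eq_zero_iff_of_nonneg (fun j _ => by have := h1 j; omega)] at h0
    have := h0 u (by simp [hn, hi.symm])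
    omega
  have hsub : univ.erase u ⊆ S.N u := by
    intro i hi
    exact S.symm _ _ (hall i (ne_of_mem_erase hi))
  have hcard := Finset.card_le_card hsub
  rw [Finset.card_erase_of_mem (mem_univ _)] at hcard
  simp only [card_univ, Fintype.card_fin] at hcard
  have := S.deg u
  have := S.le16 u
  omega

lemma card_R : (S.R.card : ℤ) = 20 - ∑ u ∈ S.Hv, (S.x u + 2) := by
  have h := S.swapcard univ S.Hv
  simp only [inter_univ, S.deg] at h
  have h2 : (S.R.card : ℤ) = ∑ v : Fin 20, (1 - ((S.N v ∩ S.Hv).card : ℤ)) := by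
    rw [R, Finset.card_filter]
    push_cast
    apply Finset.sum_congr rfl
    intro v _
    have := S.hd_le v
    split_ifs with h1
    · rw [h1]; simp
    · have : 0 < (S.N v ∩ S.Hv).card := Finset.card_pos.mpr (Finset.nonempty_iff_ne_empty.mpr h1)
      omega
  rw [h2, Finset.sum_sub_distrib, h]; simp

lemma sum_R : ∑ v ∈ S.R, S.x v = S.s + 17 - S.Hv.card * S.s := by
  have h := S.swap (fun i _ => S.x i) univ S.Hv
  simp only [inter_univ, S.sum, sum_const, nsmul_eq_mul] at h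
  have h2 : ∑ v ∈ S.R, S.x v = ∑ v : Fin 20, (S.x v - ((S.N v ∩ S.Hv).card : ℤ) * S.x v) := by
    rw [R, Finset.sum_filter]
    apply Finset.sum_congr rfl
    intro v _
    have := S.hd_le v
    split_ifs with h1
    · rw [h1]; simp
    · have h3 : 0 < (S.N v ∩ S.Hv).card := Finset.card_pos.mpr (Finset.nonempty_iff_ne_empty.mpr h1)
      have h4 : (S.N v ∩ S.Hv).card = 1 := by omega
      rw [h4]; simp
  rw [h2, Finset.sum_sub_distrib, h, S.tot]

lemma R_card_le : (S.R.card : ℤ) ≤ ∑ v ∈ S.R, S.x v := by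
  have := Finset.sum_le_sum (fun v (hv : v ∈ S.R) => S.R_pos hv)
  simpa using this

lemma Hv_pos : 1 ≤ S.Hv.card := by
  obtain ⟨y, hy⟩ := S.exists_zero
  obtain ⟨u, hu⟩ := S.hd_zero hy
  exact Finset.card_pos.mpr ⟨u, (mem_inter.mp hu).2⟩

end Sys
end Pool.Agent.X7.Pseudo
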