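import Mathlib

namespace Pool.Agent.X7.Pseudo

/-- contribution of value `t` to the zero bound for heavy values `p`, `q`. -/
def tc (s p q t c : ℤ) : ℤ := if t = s - p ∨ t = s - q then t * c else 0

def tc3 (s p q r t c : ℤ) : ℤ := if t = s - p ∨ t = s - q ∨ t = s - r then t * c else 0

lemma pure2 (s p q c0 c1 c2 c3 c4 c5 c6 c7 c8 : ℤ)
    (h0 : 0 ≤ c0) (h1 : 0 ≤ c1) (h2 : 0 ≤ c2) (h3 : 0 ≤ c3) (h4 : 0 ≤ c4) (h5 : 0 ≤ c5)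
    (_h6 : 0 ≤ c6) (_h7 : 0 ≤ c7) (_h8 : 0 ≤ c8)
    (z3 : s + 1 ≤ 2 * 3 → c3 = 0) (z4 : s + 1 ≤ 2 * 4 → c4 = 0) (z5 : s + 1 ≤ 2 * 5 → c5 = 0)
    (z6 : s + 1 ≤ 2 * 6 → c6 = 0) (z7 : s + 1 ≤ 2 * 7 → c7 = 0) (z8 : s + 1 ≤ 2 * 8 → c8 = 0)
    (hs5 : 5 ≤ s) (hodd : s % 2 = 1)
    (hp1 : s + 1 ≤ 2 * p) (hp2 : p < s) (hq1 : s + 1 ≤ 2 * q) (hq2 : q < s)
    (hP : p + q ≤ 16) (hR : 2 * (17 - s) ≤ (s - 1) * (16 - p - q))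
    (e0 : c0 + c1 + c2 + c3 + c4 + c5 + c6 + c7 + c8 = 18)
    (e1 : c1 + 2 * c2 + 3 * c3 + 4 * c4 + 5 * c5 + 6 * c6 + 7 * c7 + 8 * c8 = s + 17 - p - q)
    (e2 : c1 + 4 * c2 + 9 * c3 + 16 * c4 + 25 * c5 + 36 * c6 + 49 * c7 + 64 * c8
      = 18 * s - 34 - p ^ 2 - q ^ 2)
    (eT : c0 ≤ tc s p q 1 c1 + tc s p q 2 c2 + tc s p q 3 c3 + tc s p q 4 c4 + tc s p q 5 c5 +
      tc s p q 6 c6 + tc s p q 7 c7 + tc s p q 8 c8) : False := by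
  have hs : s = 5 ∨ s = 7 ∨ s = 9 ∨ s = 11 ∨ s = 13 ∨ s = 15 := by omega
  rcases hs with rfl | rfl | rfl | rfl | rfl | rfl
  · have hp : p = 3 ∨ p = 4 := by omega
    have hq : q = 3 ∨ q = 4 := by omega
    rcases hp with rfl | rfl <;> rcases hq with rfl | rfl <;> norm_num [tc] at * <;> omega
  · have hp : p = 4 ∨ p = 5 ∨ p = 6 := by omega
    have hq : q = 4 ∨ q = 5 ∨ q = 6 := by omega
    rcases hp with rfl | rfl | rfl <;> rcases hq with rfl | rfl | rfl <;> norm_num [tc] at * <;> omega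
  · have hp : p = 5 ∨ p = 6 ∨ p = 7 ∨ p = 8 := by omega
    have hq : q = 5 ∨ q = 6 ∨ q = 7 ∨ q = 8 := by omega
    rcases hp with rfl | rfl | rfl | rfl <;> rcases hq with rfl | rfl | rfl | rfl <;>
      norm_num [tc] at * <;> omega
  · have hp : p = 6 ∨ p = 7 ∨ p = 8 := by omega
    have hq : q = 6 ∨ q = 7 ∨ q = 8 := by omega
    rcases hp with rfl | rfl | rfl <;> rcases hq with rfl | rfl | rfl <;> norm_num [tc] at * <;> omega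
  · have hp : p = 7 ∨ p = 8 := by omega
    have hq : q = 7 ∨ q = 8 := by omega
    rcases hp with rfl | rfl <;> rcases hq with rfl | rfl <;> norm_num [tc] at * <;> omega
  · have hp : p = 8 := by omega
    have hq : q = 8 := by omega
    subst hp; subst hq
    omega

lemma pure3 (s p q r c0 c1 c2 c3 c4 c5 c6 c7 c8 : ℤ)
    (_h0 : 0 ≤ c0) (_h1 : 0 ≤ c1) (_h2 : 0 ≤ c2) (_h3 : 0 ≤ c3) (_h4 : 0 ≤ c4) (_h5 : 0 ≤ c5)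
    (_h6 : 0 ≤ c6) (_h7 : 0 ≤ c7) (_h8 : 0 ≤ c8)
    (z3 : s + 1 ≤ 2 * 3 → c3 = 0) (z4 : s + 1 ≤ 2 * 4 → c4 = 0) (z5 : s + 1 ≤ 2 * 5 → c5 = 0)
    (z6 : s + 1 ≤ 2 * 6 → c6 = 0) (z7 : s + 1 ≤ 2 * 7 → c7 = 0) (z8 : s + 1 ≤ 2 * 8 → c8 = 0)
    (hs5 : 5 ≤ s) (hs8 : s ≤ 8) (hodd : s % 2 = 1)
    (hp1 : s + 1 ≤ 2 * p) (hp2 : p < s) (hq1 : s + 1 ≤ 2 * q) (hq2 : q < s)
    (hr1 : s + 1 ≤ 2 * r) (hr2 : r < s)
    (hP : p + q + r ≤ 14)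
    (e0 : c0 + c1 + c2 + c3 + c4 + c5 + c6 + c7 + c8 = 17)
    (e1 : c1 + 2 * c2 + 3 * c3 + 4 * c4 + 5 * c5 + 6 * c6 + 7 * c7 + 8 * c8 = s + 17 - p - q - r)
    (e2 : c1 + 4 * c2 + 9 * c3 + 16 * c4 + 25 * c5 + 36 * c6 + 49 * c7 + 64 * c8
      = 18 * s - 34 - p ^ 2 - q ^ 2 - r ^ 2)
    (eT : c0 ≤ tc3 s p q r 1 c1 + tc3 s p q r 2 c2 + tc3 s p q r 3 c3 + tc3 s p q r 4 c4 +
      tc3 s p q r 5 c5 + tc3 s p q r 6 c6 + tc3 s p q r 7 c7 + tc3 s p q r 8 c8) :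
    s = 5 ∧ ((p + q + r = 10 ∧ c0 = 10 ∧ c1 = 2 ∧ c2 = 5) ∨
      (p + q + r = 11 ∧ c0 = 8 ∧ c1 = 7 ∧ c2 = 2)) := by
  have hs : s = 5 ∨ s = 7 := by omega
  rcases hs with rfl | rfl
  · have hp : p = 3 ∨ p = 4 := by omega
    have hq : q = 3 ∨ q = 4 := by omega
    have hr : r = 3 ∨ r = 4 := by omega
    refine ⟨rfl, ?_⟩
    rcases hp with rfl | rfl <;> rcases hq with rfl | rfl <;> rcases hr with rfl | rfl <;>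
      norm_num [tc3] at * <;> omega
  · exfalso
    have hp : p = 4 ∨ p = 5 ∨ p = 6 := by omega
    have hq : q = 4 ∨ q = 5 ∨ q = 6 := by omega
    have hr : r = 4 ∨ r = 5 ∨ r = 6 := by omega
    rcases hp with rfl | rfl | rfl <;> rcases hq with rfl | rfl | rfl <;>
      rcases hr with rfl | rfl | rfl <;>
      norm_num [tc3] at * <;> omega

end Pool.Agent.X7.Pseudo
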