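import Pool.Agent.X7.Pseudo.One
import Pool.Agent.X7.Pseudo.Pure

namespace Pool.Agent.X7.Pseudo
open Finset
namespace Sys
variable (S : Sys)

def cl (t : ℕ) : ℤ := (((univ \ S.Hv).filter (fun v => (S.x v).toNat = t)).card : ℤ)

lemma cl_nonneg (t : ℕ) : 0 ≤ S.cl t := by unfold cl; positivity

lemma cl_zero_of (t : ℕ) (h : S.s + 1 ≤ 2 * t) : S.cl t = 0 := by
  unfold cl
  rw [Nat.cast_eq_zero, Finset.card_eq_zero, Finset.filter_eq_empty_iff]
  intro v hv h2
  have := S.light (mem_sdiff.mp hv).2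
  have := S.nonneg v
  omega

lemma light_sum (hs : S.s ≤ 17) (f : ℤ → ℤ) :
    ∑ v ∈ univ \ S.Hv, f (S.x v) = ∑ t ∈ range 9, S.cl t * f t := by
  rw [← Finset.sum_fiberwise_of_maps_to (g := fun v => (S.x v).toNat) (t := range 9)]
  · apply Finset.sum_congr rfl
    intro t _
    unfold cl
    rw [← nsmul_eq_mul, ← Finset.sum_const]
    apply Finset.sum_congr rfl
    intro v hv
    rw [mem_filter] at hv
    have := S.nonneg v
    have : S.x v = (t:ℤ) := by omega
    rw [this]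
  · intro v hv
    have := S.light (mem_sdiff.mp hv).2
    have := S.nonneg v
    simp only [mem_range]; omega

lemma Zs_card : (S.Zs.card : ℤ) = S.cl 0 := by
  unfold cl
  congr 2
  ext v
  simp only [S.mem_Zs, mem_filter, mem_sdiff, mem_univ, true_and, S.mem_Hv]
  have := S.nonneg v
  have := S.s5
  constructor
  · intro h; constructor <;> omega
  · intro h; omega

/-- the light neighbour of a zero -/
lemma zero_light {y u : Fin 20} (hy : S.x y = 0) (hu : u ∈ S.N y) (huH : u ∈ S.Hv) :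
    ∃ v ∈ S.N y, v ∉ S.Hv ∧ S.x v = S.s - S.x u := by
  have hd := S.deg y
  have hyc : 1 < (S.N y).card := by omega
  obtain ⟨v, hv, hvu⟩ := Finset.exists_mem_ne hyc u
  have hxv := (S.zero_pair hy hvu hv hu).1
  refine ⟨v, hv, ?_, by omega⟩
  rw [S.mem_Hv] at huH ⊢
  omega

lemma zero_T : (S.Zs.card : ℤ) ≤
    ∑ v ∈ univ \ S.Hv, (if ∃ u ∈ S.Hv, S.x v = S.s - S.x u then S.x v else 0) := by
  classical
  set T := (univ \ S.Hv).filter (fun v => ∃ u ∈ S.Hv, S.x v = S.s - S.x u) with hT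
  rw [← Finset.sum_filter, ← hT]
  have h1 : ∀ y ∈ S.Zs, (1 : ℤ) ≤ ((S.N y ∩ T).card : ℤ) := by
    intro y hy
    rw [S.mem_Zs] at hy
    obtain ⟨u, hu⟩ := S.hd_zero hy
    rw [mem_inter] at hu
    obtain ⟨v, hv, hvH, hvx⟩ := S.zero_light hy hu.1 hu.2
    have hvT : v ∈ T := by
      rw [hT, mem_filter, mem_sdiff]
      exact ⟨⟨mem_univ _, hvH⟩, u, hu.2, hvx⟩
    have : 0 < (S.N y ∩ T).card := Finset.card_pos.mpr ⟨v, mem_inter.mpr ⟨hv, hvT⟩⟩
    omega
  have h2 := Finset.sum_le_sum h1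
  rw [S.swapcard] at h2
  simp only [sum_const, nsmul_eq_mul, mul_one] at h2
  exact h2.trans (Finset.sum_le_sum (fun j _ => S.zeros_le j))

/-- zeros attached to heavy vertices of value `p` -/
lemma zero_at (A : Finset (Fin 20)) (p : ℤ) (hA : ∀ u ∈ A, u ∈ S.Hv ∧ S.x u = p)
    (B : Finset (Fin 20)) (hB : ∀ v, S.x v = S.s - p → v ∈ B)
    (hB2 : ∀ v ∈ B, S.x v ≤ S.s - p) :
    ∑ u ∈ A, ((S.N u ∩ S.Zs).card : ℤ) ≤ (S.s - p) * B.card := by
  rw [S.swapcard]
  have h1 : ∀ y ∈ S.Zs, ((S.N y ∩ A).card : ℤ) ≤ ((S.N y ∩ B).card : ℤ) := by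
    intro y hy
    rw [S.mem_Zs] at hy
    have h2 : (S.N y ∩ A).card ≤ (S.N y ∩ S.Hv).card :=
      Finset.card_le_card (fun u hu => by
        rw [mem_inter] at hu ⊢
        exact ⟨hu.1, (hA u hu.2).1⟩)
    have h3 := S.hd_le y
    rcases Nat.eq_zero_or_pos (S.N y ∩ A).card with h0 | h0
    · rw [h0]; simp
    · obtain ⟨u, hu⟩ := Finset.card_pos.mp h0
      rw [mem_inter] at hu
      obtain ⟨huH, hup⟩ := hA u hu.2
      obtain ⟨v, hv, _, hvx⟩ := S.zero_light hy hu.1 huH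
      rw [hup] at hvx
      have : 0 < (S.N y ∩ B).card := Finset.card_pos.mpr ⟨v, mem_inter.mpr ⟨hv, hB v hvx⟩⟩
      omega
  refine (Finset.sum_le_sum h1).trans ?_
  rw [S.swapcard]
  have h4 : ∑ j ∈ B, ((S.N j ∩ S.Zs).card : ℤ) ≤ ∑ j ∈ B, (S.s - p) :=
    Finset.sum_le_sum (fun j hj => (S.zeros_le j).trans (hB2 j hj))
  refine h4.trans (le_of_eq ?_)
  simp; ring

lemma total_zeros : ∑ u ∈ S.Hv, ((S.N u ∩ S.Zs).card : ℤ) = S.Zs.card := by
  rw [S.swapcard]
  have h1 : ∀ y ∈ S.Zs, ((S.N y ∩ S.Hv).card : ℤ) = 1 := by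
    intro y hy
    rw [S.mem_Zs] at hy
    have h2 := S.hd_le y
    have h3 := Finset.card_pos.mpr (S.hd_zero hy)
    omega
  rw [Finset.sum_congr rfl h1]; simp

/-- a vertex with a neighbour of value `q` has many zero neighbours -/
lemma many_zeros {u w : Fin 20} (hw : w ∈ S.N u) (hw1 : 1 ≤ S.x w) :
    S.x u + 2 - (S.s - S.x w + 1) ≤ ((S.N u ∩ S.Zs).card : ℤ) := by
  have h1 := Finset.card_inter_add_card_sdiff (S.N u) S.Zs
  have h2 := Finset.sum_inter_add_sum_sdiff (S.N u) S.Zs S.x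
  rw [S.sum] at h2
  have h3 : ∑ j ∈ S.N u ∩ S.Zs, S.x j = 0 := by
    apply Finset.sum_eq_zero
    intro j hj
    exact S.mem_Zs.mp (mem_inter.mp hj).2
  have hwm : w ∈ S.N u \ S.Zs := by
    rw [mem_sdiff, S.mem_Zs]; exact ⟨hw, by omega⟩
  rw [h3, zero_add, ← Finset.add_sum_erase _ _ hwm] at h2
  have h4 : ∑ j ∈ (S.N u \ S.Zs).erase w, (1:ℤ) ≤ ∑ j ∈ (S.N u \ S.Zs).erase w, S.x j := by
    apply Finset.sum_le_sum
    intro j hj
    have := (mem_sdiff.mp (mem_of_mem_erase hj)).2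
    rw [S.mem_Zs] at this
    have := S.nonneg j
    omega
  simp only [sum_const, nsmul_eq_mul, mul_one] at h4
  rw [Finset.card_erase_of_mem hwm] at h4
  have h5 : 0 < (S.N u \ S.Zs).card := Finset.card_pos.mpr ⟨w, hwm⟩
  have h6 := S.deg u
  omega

lemma not_two : S.Hv.card ≠ 2 := by
  intro hm
  have h5 := S.s5
  have hcR := S.card_R
  have hsR := S.sum_R
  have hle := S.R_card_le
  obtain ⟨a, b, hab, hH⟩ := Finset.card_eq_two.mp hm
  have haH : a ∈ S.Hv := by rw [hH]; simp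
  have hbH : b ∈ S.Hv := by rw [hH]; simp
  rw [hm] at hsR
  have hsum2 : ∀ f : Fin 20 → ℤ, ∑ j ∈ S.Hv, f j = f a + f b := by
    intro f; rw [hH, Finset.sum_pair hab]
  rw [hsum2] at hcR
  push_cast at hsR
  have hpa := S.mem_Hv.mp haH
  have hpb := S.mem_Hv.mp hbH
  have hs17 : S.s ≤ 17 := by omega
  -- a and b are adjacent
  have hadj : a ∈ S.N b := by
    by_contra hn
    have hn' : b ∉ S.N a := fun h => hn (S.symm _ _ h)
    have haR : a ∈ S.R := by
      rw [S.mem_R, hH]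
      ext k; simp only [mem_inter, mem_insert, mem_singleton, notMem_empty, iff_false, not_and]
      rintro h1 (rfl | rfl)
      · exact S.irr _ h1
      · exact hn' h1
    have hbR : b ∈ S.R := by
      rw [S.mem_R, hH]
      ext k; simp only [mem_inter, mem_insert, mem_singleton, notMem_empty, iff_false, not_and]
      rintro h1 (rfl | rfl)
      · exact hn h1
      · exact S.irr _ h1
    have hsub : ({a, b} : Finset (Fin 20)) ⊆ S.R := by
      intro k hk
      simp only [mem_insert, mem_singleton] at hk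
      rcases hk with rfl | rfl <;> assumption
    have h1 := Finset.sum_le_sum_of_subset_of_nonneg (f := fun j => S.x j - 1) hsub
      (fun j hj _ => by have := S.R_pos hj; omega)
    rw [Finset.sum_pair hab, Finset.sum_sub_distrib] at h1
    simp only [sum_const, nsmul_eq_mul, mul_one] at h1
    omega
  have hRl : ∀ v ∈ S.R, 2 * S.x v ≤ S.s - 1 := by
    intro v hv
    apply S.light
    intro hvH
    rw [hH] at hvH
    simp only [mem_insert, mem_singleton] at hvH
    rw [S.mem_R] at hv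
    rcases hvH with rfl | rfl
    · have : b ∈ S.N v ∩ S.Hv := mem_inter.mpr ⟨S.symm _ _ hadj, hbH⟩
      rw [hv] at this; simp at this
    · have : a ∈ S.N v ∩ S.Hv := mem_inter.mpr ⟨hadj, haH⟩
      rw [hv] at this; simp at this
  have hR := Finset.sum_le_sum hRl
  rw [← Finset.mul_sum, hsR, sum_const, nsmul_eq_mul, hcR] at hR
  -- distribution
  have hl := fun f => S.light_sum hs17 f
  have htotal : ∀ f : Fin 20 → ℤ, ∑ j ∈ univ \ S.Hv, f j = ∑ j, f j - (f a + f b) := by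
    intro f
    have := Finset.sum_inter_add_sum_sdiff univ S.Hv f
    rw [univ_inter, hsum2] at this
    linarith
  have e0 := hl (fun _ => 1)
  have e1 := hl (fun t => t)
  have e2 := hl (fun t => t ^ 2)
  have eT := hl (fun t => if t = S.s - S.x a ∨ t = S.s - S.x b then t else 0)
  rw [htotal] at e0 e1 e2
  rw [S.tot] at e1
  rw [S.sq] at e2
  have hT := S.zero_T
  have hTe : ∑ v ∈ univ \ S.Hv, (if ∃ u ∈ S.Hv, S.x v = S.s - S.x u then S.x v else 0) =
      ∑ v ∈ univ \ S.Hv, (if S.x v = S.s - S.x a ∨ S.x v = S.s - S.x b then S.x v else 0) := by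
    apply Finset.sum_congr rfl
    intro v _
    have : (∃ u ∈ S.Hv, S.x v = S.s - S.x u) ↔ (S.x v = S.s - S.x a ∨ S.x v = S.s - S.x b) := by
      rw [hH]; simp
    simp only [this]
  rw [hTe, eT, S.Zs_card] at hT
  simp only [sum_const, nsmul_eq_mul, mul_one, card_univ, Fintype.card_fin] at e0
  simp only [Finset.sum_range_succ, Finset.sum_range_zero, zero_add] at e0 e1 e2 hT
  push_cast at e0 e1 e2 hT
  have hz := fun t => S.cl_zero_of t
  refine pure2 S.s (S.x a) (S.x b) (S.cl 0) (S.cl 1) (S.cl 2) (S.cl 3) (S.cl 4) (S.cl 5) (S.cl 6)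
    (S.cl 7) (S.cl 8) (S.cl_nonneg _) (S.cl_nonneg _) (S.cl_nonneg _) (S.cl_nonneg _)
    (S.cl_nonneg _) (S.cl_nonneg _) (S.cl_nonneg _) (S.cl_nonneg _) (S.cl_nonneg _)
    (hz 3) (hz 4) (hz 5) (hz 6) (hz 7) (hz 8) h5 S.odd hpa (S.lt_s a) hpb (S.lt_s b)
    (by omega) (by linarith) (by linarith) (by linarith) (by linarith) ?_
  refine hT.trans (le_of_eq ?_)
  simp only [tc, mul_ite, mul_zero]
  have h0 : ¬ ((0:ℤ) = S.s - S.x a ∨ (0:ℤ) = S.s - S.x b) := by
    have := S.lt_s a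
    have := S.lt_s b
    omega
  rw [if_neg h0]
  simp only [mul_comm]
  ring

end Sys
end Pool.Agent.X7.Pseudo
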