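import Pool.Agent.X7.Pseudo.Heavy

namespace Pool.Agent.X7.Pseudo
open Finset

def tst (p t a b c : ℕ) : Bool :=
  !(decide (a + b + c = p + t) && decide (c ≤ t) &&
    decide (p * p + a * a + b * b + c * c + 51 = 18 * (p + t) + p) &&
    !(decide (t * ((if a = t then 1 else 0) + (if b = t then 1 else 0) +
      (if c = t then 1 else 0)) < p - 1)))

lemma dec0 : (List.range 17).all (fun p => (List.range p).all (fun t =>
    (List.range (t + 1)).all (fun a => (List.range (t + 1)).all (fun b =>
      tst p t a b (p + t - a - b))))) = true := by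
  decide +kernel

lemma dec1 (p : ℕ) (hp : p < 17) (t : ℕ) (ht : t < p) (a : ℕ) (ha : a < t + 1) (b : ℕ)
    (hb : b < t + 1) (c : ℕ) (hc : a + b + c = p + t) (hct : c ≤ t)
    (h : p * p + a * a + b * b + c * c + 51 = 18 * (p + t) + p) :
    t * ((if a = t then 1 else 0) + (if b = t then 1 else 0) + (if c = t then 1 else 0)) < p - 1 := by
  have h0 := dec0
  simp only [List.all_eq_true, List.mem_range] at h0
  have h1 := h0 p hp t ht a ha b hb
  have hc' : p + t - a - b = c := by omega
  rw [hc'] at h1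
  simp only [tst, Bool.not_eq_true', Bool.and_eq_false_iff, decide_eq_false_iff_not,
    Bool.not_eq_false', decide_eq_true_eq] at h1
  rcases h1 with ((h1 | h1) | h1) | h1
  · exact absurd hc h1
  · exact absurd hct h1
  · exact absurd h h1
  · exact h1

namespace Sys
variable (S : Sys)

lemma not_one : S.Hv.card ≠ 1 := by
  intro hm
  have h5 := S.s5
  have hcR := S.card_R
  have hsR := S.sum_R
  obtain ⟨u, hu⟩ := Finset.card_eq_one.mp hm
  have huH : u ∈ S.Hv := by rw [hu]; simp
  have hup := S.mem_Hv.mp huH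
  rw [hu] at hcR
  rw [hm] at hsR
  simp only [sum_singleton] at hcR
  have hp16 := S.le16 u
  have hRu : ∀ j, j ∈ S.R ↔ u ∉ S.N j := by
    intro j
    rw [S.mem_R, hu]
    constructor
    · intro h h2
      have : u ∈ S.N j ∩ {u} := by simp [h2]
      rw [h] at this; simp at this
    · intro h
      ext k
      simp only [mem_inter, mem_singleton, notMem_empty, iff_false, not_and]
      rintro h1 rfl
      exact h h1
  have huR : u ∈ S.R := (hRu u).mpr (S.irr u)
  -- R' = R.erase u consists of ones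
  have hR'c : ((S.R.erase u).card : ℤ) = 17 - S.x u := by
    rw [Finset.card_erase_of_mem huR]
    have : 0 < S.R.card := Finset.card_pos.mpr ⟨u, huR⟩
    omega
  have hR's : ∑ j ∈ S.R.erase u, S.x j = 17 - S.x u := by
    have := Finset.add_sum_erase _ S.x huR
    push_cast at hsR
    linarith
  have hR'1 : ∀ j ∈ S.R.erase u, S.x j = 1 := by
    have h0 : ∑ j ∈ S.R.erase u, (S.x j - 1) = 0 := by
      rw [Finset.sum_sub_distrib, hR's]
      simp only [sum_const, nsmul_eq_mul, mul_one]
      rw [hR'c]; ring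
    rw [Finset.sum_eq_zero_iff_of_nonneg] at h0
    · intro j hj
      have := h0 j hj
      omega
    · intro j hj
      have := S.R_pos (mem_of_mem_erase hj)
      omega
  obtain ⟨z, hz⟩ : (S.R.erase u).Nonempty := by
    apply Finset.card_pos.mp
    omega
  have hz1 := hR'1 z hz
  have hzR := mem_of_mem_erase hz
  have huz : u ∉ S.N z := (hRu z).mp hzR
  have hzc := S.deg z
  rw [hz1] at hzc
  set O := (S.N u).filter (fun j => 1 ≤ S.x j) with hO
  -- all zeros are neighbours of u
  have hZu : ∀ y, S.x y = 0 → u ∈ S.N y := by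
    intro y hy
    obtain ⟨w, hw⟩ := S.hd_zero hy
    rw [hu, mem_inter, mem_singleton] at hw
    rw [← hw.2]; exact hw.1
  -- card O ≤ 3
  have hNz1 : ∀ j ∈ S.N z \ S.N u, S.x j = 1 := by
    intro j hj
    rw [mem_sdiff] at hj
    apply hR'1
    rw [mem_erase]
    refine ⟨?_, (hRu j).mpr (fun h => hj.2 (S.symm _ _ h))⟩
    rintro rfl
    exact huz hj.1
  have hc1 : ∑ j ∈ S.N z ∩ S.N u, S.x j + ((S.N z \ S.N u).card : ℤ) = S.s := by
    have h1 := Finset.sum_inter_add_sum_sdiff (S.N z) (S.N u) S.x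
    rw [S.sum] at h1
    have h2 : ∑ j ∈ S.N z \ S.N u, S.x j = ((S.N z \ S.N u).card : ℤ) := by
      rw [Finset.sum_congr rfl hNz1]; simp
    linarith
  have hc2 : ∑ j ∈ S.N u ∩ S.N z, S.x j + ∑ j ∈ S.N u \ S.N z, S.x j = S.s := by
    have h1 := Finset.sum_inter_add_sum_sdiff (S.N u) (S.N z) S.x
    rw [S.sum] at h1
    exact h1
  have hc3 : ((S.N z ∩ S.N u).card : ℤ) + ((S.N z \ S.N u).card : ℤ) = 3 := by
    have := Finset.card_inter_add_card_sdiff (S.N z) (S.N u)
    have h2 : ((S.N z ∩ S.N u).card : ℤ) + ((S.N z \ S.N u).card : ℤ) = ((S.N z).card : ℤ) := by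
      exact_mod_cast this
    omega
  have hO1 : ((O \ S.N z).card : ℤ) ≤ ((S.N z \ S.N u).card : ℤ) := by
    have h1 : ((O \ S.N z).card : ℤ) ≤ ∑ j ∈ O \ S.N z, S.x j := by
      have := Finset.sum_le_sum (f := fun _ => (1:ℤ)) (g := S.x) (s := O \ S.N z) (fun j hj =>
        (mem_filter.mp (mem_sdiff.mp hj).1).2)
      simpa using this
    have h2 : ∑ j ∈ O \ S.N z, S.x j ≤ ∑ j ∈ S.N u \ S.N z, S.x j := by
      apply Finset.sum_le_sum_of_subset_of_nonneg
      · intro j hj
        rw [mem_sdiff] at hj ⊢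
        exact ⟨(mem_filter.mp hj.1).1, hj.2⟩
      · intro j _ _; exact S.nonneg j
    rw [inter_comm] at hc2
    linarith
  have hO2 : ((O ∩ S.N z).card : ℤ) ≤ ((S.N z ∩ S.N u).card : ℤ) := by
    have : O ∩ S.N z ⊆ S.N z ∩ S.N u := by
      intro j hj
      rw [mem_inter] at hj ⊢
      exact ⟨hj.2, (mem_filter.mp hj.1).1⟩
    exact_mod_cast Finset.card_le_card this
  have hO3 : (O.card : ℤ) ≤ 3 := by
    have := Finset.card_inter_add_card_sdiff O (S.N z)
    have h2 : ((O ∩ S.N z).card : ℤ) + ((O \ S.N z).card : ℤ) = (O.card : ℤ) := by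
      exact_mod_cast this
    omega
  -- values in O
  have hOval : ∀ v ∈ O, S.x v ≤ S.s - S.x u := by
    intro v hv
    rw [hO, mem_filter] at hv
    have huv := S.symm _ _ hv.1
    have hvne : v ≠ u := by rintro rfl; exact S.irr _ hv.1
    by_cases hz : ∃ y ∈ S.N v, S.x y = 0
    · obtain ⟨y, hy, hy0⟩ := hz
      have := (S.zero_pair hy0 hvne (S.symm _ _ hy) (hZu y hy0)).1
      linarith
    · push Not at hz
      have h1 : ∀ j ∈ (S.N v).erase u, 1 ≤ S.x j := by
        intro j hj
        have := hz j (mem_of_mem_erase hj)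
        have := S.nonneg j
        omega
      have h2 := Finset.sum_le_sum h1
      have h3 := Finset.add_sum_erase _ S.x huv
      rw [S.sum] at h3
      simp only [sum_const, nsmul_eq_mul, mul_one] at h2
      rw [Finset.card_erase_of_mem huv] at h2
      have h4 := S.deg v
      have h6 : 0 < (S.N v).card := Finset.card_pos.mpr ⟨u, huv⟩
      omega
  have hOsum : ∑ j ∈ O, S.x j = S.s := by
    rw [hO, Finset.sum_filter, ← S.sum u]
    apply Finset.sum_congr rfl
    intro j _
    have := S.nonneg j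
    split_ifs with h <;> omega
  have hO4 : O.card = 3 := by
    have h1 := Finset.sum_le_sum hOval
    rw [hOsum, sum_const, nsmul_eq_mul] at h1
    by_contra hne
    have h2 : (O.card : ℤ) ≤ 2 := by omega
    have h3 : 0 ≤ S.s - S.x u := by have := S.lt_s u; omega
    nlinarith
  obtain ⟨a, b, c, hab, hac, hbc, hOeq⟩ := Finset.card_eq_three.mp hO4
  have hsum3 : ∀ f : Fin 20 → ℤ, ∑ j ∈ O, f j = f a + f b + f c := by
    intro f
    rw [hOeq, Finset.sum_insert (by simp [hab, hac]), Finset.sum_pair hbc]; ring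
  have haO : a ∈ O := by rw [hOeq]; simp
  have hbO : b ∈ O := by rw [hOeq]; simp
  have hcO : c ∈ O := by rw [hOeq]; simp
  have hs3 : S.s ≤ 3 * (S.s - S.x u) := by
    have h1 := Finset.sum_le_sum hOval
    rw [hOsum, sum_const, nsmul_eq_mul, hO4] at h1
    push_cast at h1; linarith
  -- number of zeros
  have hZc : (S.Zs.card : ℤ) = S.x u - 1 := by
    have h1 : S.N u = O ∪ S.Zs := by
      ext j
      simp only [hO, mem_union, mem_filter, S.mem_Zs]
      constructor
      · intro hj
        have := S.nonneg j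
        by_cases h : S.x j = 0
        · exact Or.inr h
        · exact Or.inl ⟨hj, by omega⟩
      · rintro (h | h)
        · exact h.1
        · exact S.symm _ _ (hZu j h)
    have h2 : Disjoint O S.Zs := by
      rw [Finset.disjoint_left]
      intro j hj hj2
      rw [hO, mem_filter] at hj
      rw [S.mem_Zs] at hj2
      omega
    have h3 := Finset.card_union_of_disjoint h2
    rw [← h1] at h3
    have := S.deg u
    omega
  set T := O.filter (fun v => S.x v = S.s - S.x u) with hT
  have hT1 : ∀ y ∈ S.Zs, (1 : ℤ) ≤ ((S.N y ∩ T).card : ℤ) := by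
    intro y hy
    rw [S.mem_Zs] at hy
    have hd := S.deg y
    have hyc : 1 < (S.N y).card := by omega
    obtain ⟨v, hv, hvu⟩ := Finset.exists_mem_ne hyc u
    have hxv := (S.zero_pair hy hvu hv (hZu y hy)).1
    have hvT : v ∈ T := by
      rw [hT, mem_filter, hO, mem_filter]
      have h2 : 2 ≤ S.x v := by omega
      refine ⟨⟨?_, by omega⟩, by omega⟩
      by_contra hn
      have : v ∈ S.R.erase u := by
        rw [mem_erase]
        exact ⟨hvu, (hRu v).mpr (fun h => hn (S.symm _ _ h))⟩
      have := hR'1 v this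
      omega
    have : 0 < (S.N y ∩ T).card := Finset.card_pos.mpr ⟨v, mem_inter.mpr ⟨hv, hvT⟩⟩
    omega
  have hT2 : (S.Zs.card : ℤ) ≤ ∑ v ∈ T, (S.s - S.x u) := by
    have h1 := Finset.sum_le_sum hT1
    rw [S.swapcard] at h1
    simp only [sum_const, nsmul_eq_mul, mul_one] at h1
    refine h1.trans ?_
    have h2 : ∑ j ∈ T, (((S.N j) ∩ S.Zs).card : ℤ) ≤ ∑ j ∈ T, (S.s - S.x u) := by
      apply Finset.sum_le_sum
      intro j hj
      have := S.zeros_le j
      rw [hT, mem_filter] at hj
      omega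
    simpa using h2
  rw [hZc, hT, Finset.sum_filter, hsum3] at hT2
  -- sum of squares
  have hsq := S.sq
  have hsq2 : ∑ j, (S.x j) ^ 2 = (S.x u) ^ 2 + (17 - S.x u) + ((S.x a) ^ 2 + (S.x b) ^ 2 + (S.x c) ^ 2) := by
    have h1 := Finset.sum_inter_add_sum_sdiff univ (S.N u) (fun j => (S.x j) ^ 2)
    rw [univ_inter] at h1
    have h2 : univ \ S.N u = S.R := by
      ext j
      simp only [mem_sdiff, mem_univ, true_and, hRu]
      exact ⟨fun h h2 => h (S.symm _ _ h2), fun h h2 => h (S.symm _ _ h2)⟩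
    rw [h2, ← Finset.add_sum_erase _ _ huR] at h1
    have h3 : ∑ j ∈ S.R.erase u, (S.x j) ^ 2 = 17 - S.x u := by
      rw [Finset.sum_congr rfl (fun j hj => by rw [hR'1 j hj])]
      simp only [one_pow, sum_const, nsmul_eq_mul, mul_one]
      exact hR'c
    have h4 : ∑ j ∈ S.N u, (S.x j) ^ 2 = ∑ j ∈ O, (S.x j) ^ 2 := by
      rw [hO, Finset.sum_filter]
      apply Finset.sum_congr rfl
      intro j _
      have := S.nonneg j
      split_ifs with h
      · rfl
      · have : S.x j = 0 := by omega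
        rw [this]; norm_num
    rw [h3, h4, hsum3] at h1
    linarith
  rw [hsq] at hsq2
  rw [hsum3] at hOsum
  have va := hOval a haO
  have vb := hOval b hbO
  have vc := hOval c hcO
  have na := S.nonneg a
  have nb := S.nonneg b
  have nc := S.nonneg c
  -- transfer to naturals
  obtain ⟨p, hp⟩ := Int.eq_ofNat_of_zero_le (S.nonneg u)
  obtain ⟨t, ht⟩ := Int.eq_ofNat_of_zero_le (show 0 ≤ S.s - S.x u by have := S.lt_s u; omega)
  obtain ⟨a', ha'⟩ := Int.eq_ofNat_of_zero_le na
  obtain ⟨b', hb'⟩ := Int.eq_ofNat_of_zero_le nb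
  obtain ⟨c', hc'⟩ := Int.eq_ofNat_of_zero_le nc
  have hs' : S.s = p + t := by omega
  have key := dec1 p (by omega) t (by omega) a' (by omega) b' (by omega) c' (by omega) (by omega) (by
    zify
    rw [ha', hb', hc', hp, hs'] at hsq2
    nlinarith)
  rw [ht, ha', hb', hc', hp] at hT2
  have h7 : ((p : ℤ) - 1) ≤ t * ((if a' = t then 1 else 0) + (if b' = t then 1 else 0) + (if c' = t then 1 else 0)) := by
    refine hT2.trans (le_of_eq ?_)
    simp only [Nat.cast_inj]
    split_ifs <;> push_cast <;> ring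
  have h8 : ((t * ((if a' = t then 1 else 0) + (if b' = t then 1 else 0) + (if c' = t then 1 else 0)) : ℕ) : ℤ) < (p : ℤ) - 1 := by
    omega
  push_cast at h8
  linarith

end Sys
end Pool.Agent.X7.Pseudo
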