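import Pool.Agent.X7.Pseudo.Many

namespace Pool.Agent.X7.Pseudo
open Finset
namespace Sys
variable (S : Sys)

lemma case10 {a b c : Fin 20} (hab : a ≠ b) (hac : a ≠ c) (hbc : b ≠ c)
    (hH : S.Hv = {a, b, c}) (hs : S.s = 5) (ha : S.x a = 4)
    (hb : S.x b = 3) (hc : S.x c = 3) (h0 : S.cl 0 = 10) (h1 : S.cl 1 = 2) : False := by
  have ht := S.total_zeros
  rw [S.Zs_card, h0, hH, Finset.sum_insert (by simp [hab, hac]), Finset.sum_pair hbc] at ht
  have hzb := S.zeros_le b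
  have hzc := S.zeros_le c
  have hza := S.zero_at {a} 4 (by
    intro u hu
    rw [mem_singleton] at hu
    subst hu
    exact ⟨by rw [hH]; simp, ha⟩) ((univ \ S.Hv).filter (fun v => (S.x v).toNat = 1)) (by
    intro v hv
    rw [mem_filter, mem_sdiff, S.mem_Hv]
    refine ⟨⟨mem_univ _, by omega⟩, by omega⟩) (by
    intro v hv
    rw [mem_filter] at hv
    omega)
  rw [Finset.sum_singleton] at hza
  have h2 : (((univ \ S.Hv).filter (fun v => (S.x v).toNat = 1)).card : ℤ) = S.cl 1 := rfl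
  rw [h2, h1, hs] at hza
  omega

lemma case11 {t u w : Fin 20} (htu : t ≠ u) (htw : t ≠ w) (huw : u ≠ w)
    (hH : ∀ j, j ∈ S.Hv ↔ (j = t ∨ j = u ∨ j = w)) (hs : S.s = 5) (ht : S.x t = 3)
    (_hu : S.x u = 4) (hw : S.x w = 4) (_h0 : S.cl 0 = 8) (_h1 : S.cl 1 = 7) (h2 : S.cl 2 = 2)
    (hcR : (S.R.card : ℤ) = 3) (hsR : ∑ v ∈ S.R, S.x v = 7)
    (htu' : u ∈ S.N t) : False := by
  have htH : t ∈ S.Hv := (hH t).mpr (by simp)
  have huH : u ∈ S.Hv := (hH u).mpr (by simp)
  have hwH : w ∈ S.Hv := (hH w).mpr (by simp)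
  -- two heavy neighbours are impossible
  have two : ∀ v i j : Fin 20, i ∈ S.Hv → j ∈ S.Hv → i ∈ S.N v → j ∈ S.N v → i = j := by
    intro v i j hi hj hi2 hj2
    by_contra hne
    have : ({i, j} : Finset (Fin 20)) ⊆ S.N v ∩ S.Hv := by
      intro k hk
      simp only [mem_insert, mem_singleton] at hk
      rcases hk with rfl | rfl
      · exact mem_inter.mpr ⟨hi2, hi⟩
      · exact mem_inter.mpr ⟨hj2, hj⟩
    have h3 := Finset.card_le_card this
    rw [Finset.card_pair hne] at h3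
    have := S.hd_le v
    omega
  have hwR : w ∈ S.R := by
    rw [S.mem_R]
    ext k
    simp only [mem_inter, notMem_empty, iff_false, not_and]
    intro h3 h4
    rcases (hH k).mp h4 with rfl | rfl | rfl
    · exact huw (two k u w huH hwH htu' (S.symm _ _ h3))
    · exact htw (two k t w htH hwH (S.symm _ _ htu') (S.symm _ _ h3))
    · exact S.irr _ h3
  -- r in R with value 2
  have hRe : ∃ r ∈ S.R, S.x r = 2 := by
    have h3 : ((S.R.erase w).card : ℤ) = 2 := by
      rw [Finset.card_erase_of_mem hwR]; omega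
    have h4 : (S.R.erase w).card = 2 := by exact_mod_cast h3
    obtain ⟨i, j, hij, hR2⟩ := Finset.card_eq_two.mp h4
    have h5 := Finset.add_sum_erase _ S.x hwR
    rw [hR2, Finset.sum_pair hij, hsR, hw] at h5
    have hi : i ∈ S.R.erase w := by rw [hR2]; simp
    have hj : j ∈ S.R.erase w := by rw [hR2]; simp
    have hi1 := S.R_pos (mem_of_mem_erase hi)
    have hj1 := S.R_pos (mem_of_mem_erase hj)
    rcases (show S.x i = 2 ∨ S.x j = 2 by omega) with h | h
    · exact ⟨i, mem_of_mem_erase hi, h⟩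
    · exact ⟨j, mem_of_mem_erase hj, h⟩
  obtain ⟨r, hrR, hr2⟩ := hRe
  set B := (univ \ S.Hv).filter (fun v => (S.x v).toNat = 2) with hB
  have hBc : B.card = 2 := by
    have : (B.card : ℤ) = S.cl 2 := rfl
    rw [h2] at this; exact_mod_cast this
  have hBm : ∀ v, v ∈ B ↔ S.x v = 2 := by
    intro v
    rw [hB, mem_filter, mem_sdiff, S.mem_Hv]
    have := S.nonneg v
    constructor
    · intro h; omega
    · intro h; exact ⟨⟨mem_univ _, by omega⟩, by omega⟩
  have hrB : r ∈ B := (hBm r).mpr hr2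
  obtain ⟨r', hr'⟩ : ∃ r', B.erase r = {r'} := by
    apply Finset.card_eq_one.mp
    rw [Finset.card_erase_of_mem hrB, hBc]
  have hr'B : r' ∈ B := by
    have : r' ∈ B.erase r := by rw [hr']; simp
    exact mem_of_mem_erase this
  have hBiff : ∀ v, S.x v = 2 → v = r ∨ v = r' := by
    intro v hv
    by_cases h : v = r
    · exact Or.inl h
    · right
      have : v ∈ B.erase r := mem_erase.mpr ⟨h, (hBm v).mpr hv⟩
      rw [hr'] at this
      simpa using this
  -- t has at least three zero neighbours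
  have hzt := S.many_zeros htu' (by omega)
  -- they are attached to B
  have hY : ((S.N t ∩ S.Zs).card : ℤ) ≤ ((S.N r ∩ S.Zs).card : ℤ) + ((S.N r' ∩ S.Zs).card : ℤ) := by
    have h3 : ∀ y ∈ S.N t ∩ S.Zs, (1 : ℤ) ≤ ((S.N y ∩ B).card : ℤ) := by
      intro y hy
      rw [mem_inter, S.mem_Zs] at hy
      obtain ⟨v, hv, _, hvx⟩ := S.zero_light hy.2 (S.symm _ _ hy.1) htH
      have : 0 < (S.N y ∩ B).card :=
        Finset.card_pos.mpr ⟨v, mem_inter.mpr ⟨hv, (hBm v).mpr (by omega)⟩⟩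
      omega
    have h4 := Finset.sum_le_sum h3
    rw [S.swapcard, ← Finset.add_sum_erase _ _ hrB, hr', Finset.sum_singleton] at h4
    simp only [sum_const, nsmul_eq_mul, mul_one] at h4
    have h5 : ∀ k, (((S.N k) ∩ (S.N t ∩ S.Zs)).card : ℤ) ≤ ((S.N k ∩ S.Zs).card : ℤ) := by
      intro k
      have : (S.N k) ∩ (S.N t ∩ S.Zs) ⊆ S.N k ∩ S.Zs := by
        intro j hj
        simp only [mem_inter] at hj ⊢
        exact ⟨hj.1, hj.2.2⟩
      exact_mod_cast Finset.card_le_card this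
    have h6 := h5 r
    have h7 := h5 r'
    linarith
  have hzr' := S.zeros_le r'
  rw [(hBm r').mp hr'B] at hzr'
  have hzr : (1 : ℤ) ≤ ((S.N r ∩ S.Zs).card : ℤ) := by omega
  -- contradiction at r
  have hpt : ∀ j ∈ S.N r, S.x j ≤ 1 + (if j = r' then 1 else 0) - (if j ∈ S.Zs then 1 else 0) := by
    intro j hj
    have hjn := S.nonneg j
    have hjH : j ∉ S.Hv := by
      intro h
      have : j ∈ S.N r ∩ S.Hv := mem_inter.mpr ⟨hj, h⟩
      rw [S.mem_R.mp hrR] at this; simp at this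
    have hjl := S.light hjH
    by_cases hz : S.x j = 0
    · rw [if_pos (S.mem_Zs.mpr hz)]
      split_ifs <;> omega
    · rw [if_neg (fun h => hz (S.mem_Zs.mp h))]
      by_cases h2 : S.x j = 2
      · rcases hBiff j h2 with h | h
        · subst h; exact absurd hj (S.irr _)
        · rw [if_pos h]; omega
      · split_ifs <;> omega
  have h3 := Finset.sum_le_sum hpt
  rw [S.sum, Finset.sum_sub_distrib, Finset.sum_add_distrib] at h3
  simp only [sum_const, nsmul_eq_mul, mul_one, Finset.sum_ite_eq', Finset.sum_ite_mem] at h3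
  rw [S.deg, hr2, hs] at h3
  have h4 : (if r' ∈ S.N r then (1:ℤ) else 0) ≤ 1 := by split_ifs <;> norm_num
  linarith

lemma case11' {t u w : Fin 20} (htu : t ≠ u) (htw : t ≠ w) (huw : u ≠ w)
    (hH : ∀ j, j ∈ S.Hv ↔ (j = t ∨ j = u ∨ j = w)) (hs : S.s = 5) (ht : S.x t = 3)
    (hu : S.x u = 4) (hw : S.x w = 4) (h0 : S.cl 0 = 8) (h1 : S.cl 1 = 7) (h2 : S.cl 2 = 2)
    (hcR : (S.R.card : ℤ) = 3) (hsR : ∑ v ∈ S.R, S.x v = 7) : False := by
  have htH : t ∈ S.Hv := (hH t).mpr (by simp)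
  have huH : u ∈ S.Hv := (hH u).mpr (by simp)
  have hwH : w ∈ S.Hv := (hH w).mpr (by simp)
  by_cases h3 : u ∈ S.N t
  · exact S.case11 htu htw huw hH hs ht hu hw h0 h1 h2 hcR hsR h3
  by_cases h4 : w ∈ S.N t
  · exact S.case11 htw htu huw.symm (fun j => by rw [hH j]; tauto) hs ht hw hu h0 h1 h2 hcR hsR h4
  -- t in R
  have htR : t ∈ S.R := by
    rw [S.mem_R]
    ext k
    simp only [mem_inter, notMem_empty, iff_false, not_and]
    intro h5 h6
    rcases (hH k).mp h6 with rfl | rfl | rfl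
    · exact S.irr _ h5
    · exact h3 h5
    · exact h4 h5
  have hnR : ∀ k, S.x k = 4 → k ≠ t → k ∉ S.R := by
    intro k hk hkt hkR
    have hsub : ({k, t} : Finset (Fin 20)) ⊆ S.R := by
      intro i hi
      simp only [mem_insert, mem_singleton] at hi
      rcases hi with rfl | rfl <;> assumption
    have h5 := Finset.sum_le_sum_of_subset_of_nonneg (f := fun j => S.x j - 1) hsub
      (fun j hj _ => by have := S.R_pos hj; omega)
    rw [Finset.sum_pair hkt, Finset.sum_sub_distrib, hsR, hk, ht] at h5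
    simp only [sum_const, nsmul_eq_mul, mul_one] at h5
    omega
  have huR := hnR u hu htu.symm
  -- u adjacent to w
  have huw' : w ∈ S.N u := by
    rw [S.mem_R] at huR
    obtain ⟨k, hk⟩ := Finset.nonempty_iff_ne_empty.mpr huR
    rw [mem_inter] at hk
    rcases (hH k).mp hk.2 with rfl | rfl | rfl
    · exact absurd (S.symm _ _ hk.1) h3
    · exact absurd hk.1 (S.irr _)
    · exact hk.1
  have hz1 := S.many_zeros huw' (by omega)
  have hz2 := S.many_zeros (S.symm _ _ huw') (by omega)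
  have hza := S.zero_at {u, w} 4 (by
    intro k hk
    simp only [mem_insert, mem_singleton] at hk
    rcases hk with rfl | rfl
    · exact ⟨huH, hu⟩
    · exact ⟨hwH, hw⟩) ((univ \ S.Hv).filter (fun v => (S.x v).toNat = 1)) (by
    intro v hv
    rw [mem_filter, mem_sdiff, S.mem_Hv]
    refine ⟨⟨mem_univ _, by omega⟩, by omega⟩) (by
    intro v hv
    rw [mem_filter] at hv
    omega)
  rw [Finset.sum_pair huw] at hza
  have h5 : (((univ \ S.Hv).filter (fun v => (S.x v).toNat = 1)).card : ℤ) = S.cl 1 := rfl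
  rw [h5, h1, hs] at hza
  omega

lemma not_three : S.Hv.card ≠ 3 := by
  intro hm
  have h5 := S.s5
  have hcR := S.card_R
  have hsR := S.sum_R
  have hle := S.R_card_le
  obtain ⟨a, b, c, hab, hac, hbc, hH⟩ := Finset.card_eq_three.mp hm
  have haH : a ∈ S.Hv := by rw [hH]; simp
  have hbH : b ∈ S.Hv := by rw [hH]; simp
  have hcH : c ∈ S.Hv := by rw [hH]; simp
  rw [hm] at hsR
  have hsum3 : ∀ f : Fin 20 → ℤ, ∑ j ∈ S.Hv, f j = f a + f b + f c := by
    intro f
    rw [hH, Finset.sum_insert (by simp [hab, hac]), Finset.sum_pair hbc]; ring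
  rw [hsum3] at hcR
  push_cast at hsR
  have hpa := S.mem_Hv.mp haH
  have hpb := S.mem_Hv.mp hbH
  have hpc := S.mem_Hv.mp hcH
  have hs8 : S.s ≤ 8 := by omega
  have hl := fun f => S.light_sum (by omega) f
  have htotal : ∀ f : Fin 20 → ℤ, ∑ j ∈ univ \ S.Hv, f j = ∑ j, f j - (f a + f b + f c) := by
    intro f
    have := Finset.sum_inter_add_sum_sdiff univ S.Hv f
    rw [univ_inter, hsum3] at this
    linarith
  have e0 := hl (fun _ => 1)
  have e1 := hl (fun t => t)
  have e2 := hl (fun t => t ^ 2)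
  have eT := hl (fun t => if t = S.s - S.x a ∨ t = S.s - S.x b ∨ t = S.s - S.x c then t else 0)
  rw [htotal] at e0 e1 e2
  rw [S.tot] at e1
  rw [S.sq] at e2
  have hT := S.zero_T
  have hTe : ∑ v ∈ univ \ S.Hv, (if ∃ u ∈ S.Hv, S.x v = S.s - S.x u then S.x v else 0) =
      ∑ v ∈ univ \ S.Hv, (if S.x v = S.s - S.x a ∨ S.x v = S.s - S.x b ∨ S.x v = S.s - S.x c
        then S.x v else 0) := by
    apply Finset.sum_congr rfl
    intro v _
    have : (∃ u ∈ S.Hv, S.x v = S.s - S.x u) ↔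
        (S.x v = S.s - S.x a ∨ S.x v = S.s - S.x b ∨ S.x v = S.s - S.x c) := by
      rw [hH]; simp
    simp only [this]
  rw [hTe, eT, S.Zs_card] at hT
  simp only [sum_const, nsmul_eq_mul, mul_one, card_univ, Fintype.card_fin] at e0
  simp only [Finset.sum_range_succ, Finset.sum_range_zero, zero_add] at e0 e1 e2 hT
  push_cast at e0 e1 e2 hT
  have hz := fun t => S.cl_zero_of t
  have key := pure3 S.s (S.x a) (S.x b) (S.x c) (S.cl 0) (S.cl 1) (S.cl 2) (S.cl 3) (S.cl 4)
    (S.cl 5) (S.cl 6)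
    (S.cl 7) (S.cl 8) (S.cl_nonneg _) (S.cl_nonneg _) (S.cl_nonneg _) (S.cl_nonneg _)
    (S.cl_nonneg _) (S.cl_nonneg _) (S.cl_nonneg _) (S.cl_nonneg _) (S.cl_nonneg _)
    (hz 3) (hz 4) (hz 5) (hz 6) (hz 7) (hz 8) h5 hs8 S.odd hpa (S.lt_s a) hpb (S.lt_s b)
    hpc (S.lt_s c)
    (by omega) (by linarith) (by linarith) (by linarith) (by
      refine hT.trans (le_of_eq ?_)
      simp only [tc3, mul_ite, mul_zero]
      have h0 : ¬ ((0:ℤ) = S.s - S.x a ∨ (0:ℤ) = S.s - S.x b ∨ (0:ℤ) = S.s - S.x c) := by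
        have := S.lt_s a
        have := S.lt_s b
        have := S.lt_s c
        omega
      rw [if_neg h0]
      simp only [mul_comm]
      ring)
  obtain ⟨hs, key⟩ := key
  have la := S.lt_s a
  have lb := S.lt_s b
  have lc := S.lt_s c
  rcases key with ⟨hP, k0, k1, k2⟩ | ⟨hP, k0, k1, k2⟩
  · rcases (show (S.x a = 4 ∧ S.x b = 3 ∧ S.x c = 3) ∨ (S.x a = 3 ∧ S.x b = 4 ∧ S.x c = 3) ∨
      (S.x a = 3 ∧ S.x b = 3 ∧ S.x c = 4) by omega) with ⟨xa, xb, xc⟩ | ⟨xa, xb, xc⟩ | ⟨xa, xb, xc⟩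
    · exact S.case10 hab hac hbc hH hs xa xb xc k0 k1
    · exact S.case10 (a := b) (b := a) (c := c) hab.symm hbc hac (by rw [hH]; ext; simp; tauto)
        hs xb xa xc k0 k1
    · exact S.case10 (a := c) (b := a) (c := b) hac.symm hbc.symm hab (by rw [hH]; ext; simp; tauto)
        hs xc xa xb k0 k1
  · have hcR' : (S.R.card : ℤ) = 3 := by omega
    have hsR' : ∑ v ∈ S.R, S.x v = 7 := by omega
    have hHm : ∀ j, j ∈ S.Hv ↔ (j = a ∨ j = b ∨ j = c) := by
      intro j; rw [hH]; simp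
    rcases (show (S.x a = 3 ∧ S.x b = 4 ∧ S.x c = 4) ∨ (S.x a = 4 ∧ S.x b = 3 ∧ S.x c = 4) ∨
      (S.x a = 4 ∧ S.x b = 4 ∧ S.x c = 3) by omega) with ⟨xa, xb, xc⟩ | ⟨xa, xb, xc⟩ | ⟨xa, xb, xc⟩
    · exact S.case11' hab hac hbc hHm hs xa xb xc k0 k1 k2 hcR' hsR'
    · exact S.case11' (t := b) (u := a) (w := c) hab.symm hbc hac
        (fun j => by rw [hHm j]; tauto) hs xb xa xc k0 k1 k2 hcR' hsR'
    · exact S.case11' (t := c) (u := a) (w := b) hac.symm hbc.symm hab
        (fun j => by rw [hHm j]; tauto) hs xc xa xb k0 k1 k2 hcR' hsR'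

theorem absurd_sys (S : Sys) : False := by
  have h5 := S.s5
  have hcR := S.card_R
  have hsR := S.sum_R
  have hle := S.R_card_le
  have h1 := S.not_one
  have h2 := S.not_two
  have h3 := S.not_three
  have hpos := S.Hv_pos
  have h4 : 4 ≤ S.Hv.card := by omega
  have h4' : (4 : ℤ) ≤ (S.Hv.card : ℤ) := by exact_mod_cast h4
  have hs5 : S.s = 5 := by
    by_contra hne
    have : 7 ≤ S.s := by have := S.odd; omega
    nlinarith
  have h6 : ∑ u ∈ S.Hv, (5 : ℤ) ≤ ∑ u ∈ S.Hv, (S.x u + 2) := by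
    apply Finset.sum_le_sum
    intro u hu
    have := S.mem_Hv.mp hu
    omega
  rw [sum_const, nsmul_eq_mul] at h6
  have h7 : S.R.card = 0 := by omega
  rw [Finset.card_eq_zero] at h7
  rw [h7] at hsR
  simp only [sum_empty] at hsR
  rw [hs5] at hsR
  omega

end Sys
end Pool.Agent.X7.Pseudo
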