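import Pool.Agent.X7.Pseudo.Basic

namespace Pool.Agent.X7.Pseudo
open Finset
namespace Sys
variable (S : Sys)

def P1 (u : Fin 20) : Finset (Fin 20) := (S.N u).filter (fun j => 1 ≤ S.x j)
def Z1 (u : Fin 20) : Finset (Fin 20) := (S.N u).filter (fun j => S.x j = 0)
def L1 (u : Fin 20) : Finset (Fin 20) := (S.N u).filter (fun j => S.x j = -1)
def X1 (u : Fin 20) : Finset (Fin 20) := univ.filter (fun j => S.x j = 0 ∧ j ∉ S.N u)

lemma leaf_top {u i : Fin 20} (hu : S.x u = S.s) (h : S.x i = -1) : S.N i = {u} := by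
  obtain ⟨w, hw, hws⟩ := S.leaf h
  rw [hw, S.top_unique hws hu]

lemma top_step1 {u v j : Fin 20} (hu : S.x u = S.s) (hv : v ∈ S.P1 u) (hj : j ∈ S.N v)
    (hju : j ≠ u) : j ∈ S.X1 u := by
  simp only [P1, mem_filter] at hv
  obtain ⟨hvu, hv1⟩ := hv
  have huv := S.symm _ _ hvu
  have hvne : v ≠ u := by rintro rfl; exact S.irr _ hvu
  have hsum := S.sum v
  rw [← Finset.add_sum_erase _ _ huv, hu] at hsum
  have h0 : ∑ k ∈ (S.N v).erase u, S.x k = 0 := by linarith
  have hnn : ∀ k ∈ (S.N v).erase u, 0 ≤ S.x k := by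
    intro k hk
    have hkv := S.symm _ _ (mem_of_mem_erase hk)
    have := S.lb k
    by_contra hc
    have h1 : S.x k = -1 := by omega
    rw [S.leaf_top hu h1, mem_singleton] at hkv
    exact hvne hkv
  rw [Finset.sum_eq_zero_iff_of_nonneg hnn] at h0
  have hx : S.x j = 0 := h0 j (mem_erase.mpr ⟨hju, hj⟩)
  simp only [X1, mem_filter, mem_univ, true_and]
  refine ⟨hx, fun hjN => ?_⟩
  have := (S.zero_pair hx hvne (S.symm _ _ hj) (S.symm _ _ hjN)).1
  omega

lemma top_count {u : Fin 20} (hu : S.x u = S.s) :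
    ∑ v ∈ S.P1 u, (S.x v + 1) ≤ 2 * ((S.X1 u).card : ℤ) := by
  have h1 : ∑ v ∈ S.P1 u, (S.x v + 1) ≤ ∑ v ∈ S.P1 u, (((S.N v) ∩ (S.X1 u)).card : ℤ) := by
    apply Finset.sum_le_sum
    intro v hv
    have huv : u ∈ S.N v := S.symm _ _ (mem_of_mem_filter _ hv)
    have hsub : (S.N v).erase u ⊆ (S.N v) ∩ (S.X1 u) := by
      intro j hj
      rw [mem_erase] at hj
      exact mem_inter.mpr ⟨hj.2, S.top_step1 hu hv hj.2 hj.1⟩
    have hc := Finset.card_le_card hsub
    rw [Finset.card_erase_of_mem huv] at hc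
    have hd := S.deg v
    have hpos : 0 < (S.N v).card := Finset.card_pos.mpr ⟨u, huv⟩
    omega
  rw [S.swapcard] at h1
  refine h1.trans ?_
  have h2 : ∑ j ∈ S.X1 u, (((S.N j) ∩ (S.P1 u)).card : ℤ) ≤ ∑ j ∈ S.X1 u, (2 : ℤ) := by
    apply Finset.sum_le_sum
    intro y hy
    simp only [X1, mem_filter, mem_univ, true_and] at hy
    have hd := S.deg y
    have := Finset.card_le_card (inter_subset_left : (S.N y) ∩ (S.P1 u) ⊆ S.N y)
    omega
  refine h2.trans (le_of_eq ?_)
  simp; ring

lemma top_sums (u : Fin 20) (hu : S.x u = S.s) :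
    ∑ v ∈ S.P1 u, (S.x v + 1) = 2 * S.s + 2 - (S.Z1 u).card ∧
    ((S.P1 u).card : ℤ) + (S.Z1 u).card + (S.L1 u).card = S.s + 2 ∧
    ∑ v ∈ S.P1 u, S.x v = S.s + (S.L1 u).card := by
  have hlb := S.lb
  have e1 : ∑ j ∈ S.N u, (S.x j + 1) = 2 * S.s + 2 := by
    rw [Finset.sum_add_distrib, S.sum]; simp [S.deg, hu]; ring
  have e2 : ∑ j ∈ S.N u, (S.x j + 1) =
      ∑ j ∈ S.N u, (if 1 ≤ S.x j then (S.x j + 1) else 0) + ∑ j ∈ S.N u, (if S.x j = 0 then (1:ℤ) else 0) := by
    rw [← Finset.sum_add_distrib]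
    apply Finset.sum_congr rfl
    intro j _
    have := hlb j
    split_ifs <;> omega
  have e3 : ((S.N u).card : ℤ) = ∑ j ∈ S.N u, (if 1 ≤ S.x j then (1:ℤ) else 0) +
      ∑ j ∈ S.N u, (if S.x j = 0 then (1:ℤ) else 0) + ∑ j ∈ S.N u, (if S.x j = -1 then (1:ℤ) else 0) := by
    rw [← Finset.sum_add_distrib, ← Finset.sum_add_distrib, Finset.card_eq_sum_ones]
    push_cast
    apply Finset.sum_congr rfl
    intro j _
    have := hlb j
    split_ifs <;> omega
  have e4 : ∑ j ∈ S.N u, S.x j = ∑ j ∈ S.N u, (if 1 ≤ S.x j then S.x j else 0) -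
      ∑ j ∈ S.N u, (if S.x j = -1 then (1:ℤ) else 0) := by
    rw [← Finset.sum_sub_distrib]
    apply Finset.sum_congr rfl
    intro j _
    have := hlb j
    split_ifs <;> omega
  rw [← Finset.sum_filter, ← Finset.sum_filter] at e2 e4
  rw [← Finset.sum_filter, ← Finset.sum_filter, ← Finset.sum_filter] at e3
  simp only [sum_const, nsmul_eq_mul, mul_one] at e2 e3 e4
  rw [S.sum] at e4
  rw [S.deg, hu] at e3
  simp only [P1, Z1, L1]
  refine ⟨by linarith, by linarith, by linarith⟩

def g (t : ℤ) : ℤ := (t - 1) * (t - 2)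

lemma g_nonneg (t : ℤ) : 0 ≤ g t := by
  unfold g
  rcases le_or_gt t 1 with h | h
  · nlinarith
  · nlinarith

lemma top_quad {u v : Fin 20} (hu : S.x u = S.s) (hv : v ∈ S.P1 u) :
    S.s ^ 2 - 16 * S.s + 49 + (S.Z1 u).card + 6 * (S.L1 u).card + g (S.x v) + g (S.s - S.x v) ≤ 0 := by
  have h5 := S.s5
  have hvm := hv
  simp only [P1, mem_filter] at hvm
  obtain ⟨hvu, hv1⟩ := hvm
  have huv := S.symm _ _ hvu
  have hvne : v ≠ u := by rintro rfl; exact S.irr _ hvu
  have hvs : S.x v ≠ S.s := fun h => hvne (S.top_unique h hu)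
  have hvle := S.le_s v
  -- a neighbour y of v other than u
  have hex : ∃ y ∈ S.N v, y ≠ u := by
    have hd := S.deg v
    have : 1 < (S.N v).card := by omega
    obtain ⟨y, hy, hyu⟩ := Finset.exists_mem_ne this u
    exact ⟨y, hy, hyu⟩
  obtain ⟨y, hy, hyu⟩ := hex
  have hyX := S.top_step1 hu hv hy hyu
  simp only [X1, mem_filter, mem_univ, true_and] at hyX
  have hd := S.deg y
  have hyc : 1 < (S.N y).card := by omega
  obtain ⟨w, hw, hwv⟩ := Finset.exists_mem_ne hyc v
  have hxw : S.x v + S.x w = S.s := (S.zero_pair hyX.1 hwv.symm (S.symm _ _ hy) hw).1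
  have hwu : w ≠ u := by
    rintro rfl
    exact hyX.2 (S.symm _ _ hw)
  have hpt : ∀ j, (if j = u then g S.s else 0) + (if j = v then g (S.x v) else 0) +
      (if j = w then g (S.x w) else 0) + (if j ∈ S.Z1 u then 2 else 0) + (if j ∈ S.L1 u then 6 else 0)
      + (if j ∈ S.X1 u then 2 else 0) ≤ (S.x j - 1) * (S.x j - 2) := by
    intro j
    have hj := S.lb j
    have hgj := g_nonneg (S.x j)
    by_cases h1 : S.x j = -1
    · have n1 : j ≠ u := by rintro rfl; omega
      have n2 : j ≠ v := by rintro rfl; omega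
      have n3 : j ≠ w := by rintro rfl; omega
      have n4 : j ∉ S.Z1 u := by simp [Z1, h1]
      have n5 : j ∉ S.X1 u := by simp [X1, h1]
      simp only [n1, n2, n3, n4, n5, if_false]
      rw [h1]; split_ifs <;> norm_num
    · by_cases h2 : S.x j = 0
      · have n1 : j ≠ u := by rintro rfl; omega
        have n2 : j ≠ v := by rintro rfl; omega
        have n3 : j ≠ w := by rintro rfl; omega
        have n4 : j ∉ S.L1 u := by simp [L1, h2]
        simp only [n1, n2, n3, n4, if_false]
        rw [h2]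
        by_cases h3 : j ∈ S.N u
        · have : j ∉ S.X1 u := by simp [X1, h3]
          simp only [this, if_false]; split_ifs <;> norm_num
        · have : j ∉ S.Z1 u := by simp [Z1, h3]
          simp only [this, if_false]; split_ifs <;> norm_num
      · have n4 : j ∉ S.L1 u := by simp [L1, h1]
        have n5 : j ∉ S.Z1 u := by simp [Z1, h2]
        have n6 : j ∉ S.X1 u := by simp [X1, h2]
        simp only [n4, n5, n6, if_false]
        by_cases h3 : j = u
        · subst h3
          simp only [hvne.symm, hwu.symm, if_false, if_true, hu, g]; linarith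
        · by_cases h4 : j = v
          · subst h4
            simp only [h3, hwv.symm, if_false, if_true, g]; linarith
          · by_cases h6 : j = w
            · subst h6
              simp only [h3, h4, if_false, if_true, g]; linarith
            · simp only [h3, h4, h6, if_false]; simpa [g] using hgj
  have hsum := Finset.sum_le_sum (fun j (_ : j ∈ (univ : Finset (Fin 20))) => hpt j)
  rw [S.gsum] at hsum
  simp only [Finset.sum_add_distrib, Finset.sum_ite_eq', mem_univ, if_true, Finset.sum_ite_mem,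
    univ_inter, sum_const, nsmul_eq_mul] at hsum
  have hc := S.top_count hu
  have ⟨t1, t2, t3⟩ := S.top_sums u hu
  have hwx : S.x w = S.s - S.x v := by linarith
  rw [hwx] at hsum
  have hgs : g S.s = S.s ^ 2 - 3 * S.s + 2 := by unfold g; ring
  rw [hgs] at hsum
  linarith

lemma no_top (u : Fin 20) : S.x u ≠ S.s := by
  intro hu
  have h5 := S.s5
  have hodd := S.odd
  have ⟨t1, t2, t3⟩ := S.top_sums u hu
  have hq := fun v hv => S.top_quad (v := v) hu hv
  set β : ℤ := ((S.Z1 u).card : ℤ) with hβ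
  set a : ℤ := ((S.L1 u).card : ℤ) with ha
  set r : ℤ := ((S.P1 u).card : ℤ) with hr
  have hβ0 : 0 ≤ β := by positivity
  have ha0 : 0 ≤ a := by positivity
  have hge1 : ∀ v ∈ S.P1 u, 1 ≤ S.x v := fun v hv => (mem_filter.mp hv).2
  have hne : (S.P1 u).Nonempty := by
    rw [Finset.nonempty_iff_ne_empty]
    intro h
    rw [h] at t3; simp at t3; omega
  obtain ⟨v, hv⟩ := hne
  have hqv := hq v hv
  have hg1 := g_nonneg (S.x v)
  have hg2 := g_nonneg (S.s - S.x v)
  have hs12 : S.s ≤ 12 := by nlinarith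
  have lower : ∀ c : ℤ, (∀ v ∈ S.P1 u, c ≤ S.x v) → c * r ≤ S.s + a := by
    intro c hc
    have := Finset.sum_le_sum hc
    rw [sum_const, nsmul_eq_mul, t3] at this
    linarith
  have hs : S.s = 5 ∨ S.s = 7 ∨ S.s = 9 ∨ S.s = 11 := by omega
  rcases hs with hs | hs | hs | hs
  · -- s = 5
    rw [hs] at hq t2 t3 lower
    simp only [g] at hq
    by_cases h1 : ∃ v ∈ S.P1 u, S.x v = 1
    · obtain ⟨v, hv, hv1⟩ := h1
      have := hq v hv
      rw [hv1] at this
      have := lower 1 hge1
      omega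
    · push Not at h1
      have h2 : ∀ v ∈ S.P1 u, 2 ≤ S.x v := by
        intro v hv
        have := hge1 v hv
        have := h1 v hv
        omega
      have h3 := lower 2 h2
      have h4 : β + 6 * a ≤ 4 := by
        have := hq v hv
        nlinarith [sq_nonneg (2 * S.x v - 5), h2 v hv]
      omega
  · -- s = 7
    rw [hs] at hq t2 t3 lower
    simp only [g] at hq
    have h2 : ∀ v ∈ S.P1 u, 2 ≤ S.x v := by
      intro v hv
      have h1 := hge1 v hv
      have h3 := hq v hv
      by_contra hc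
      have : S.x v = 1 := by omega
      rw [this] at h3
      omega
    by_cases h1 : ∃ v ∈ S.P1 u, S.x v = 2
    · obtain ⟨v, hv, hv1⟩ := h1
      have := hq v hv
      rw [hv1] at this
      have := lower 2 h2
      omega
    · push Not at h1
      have h3 : ∀ v ∈ S.P1 u, 3 ≤ S.x v := by
        intro v hv
        have := h2 v hv
        have := h1 v hv
        omega
      have h4 := lower 3 h3
      have h6 : β + 6 * a ≤ 6 := by
        have h7 := hq v hv
        have h8 : 0 ≤ (S.x v - 3) * (S.x v - 4) := by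
          rcases le_or_gt (S.x v) 3 with h | h
          · nlinarith
          · nlinarith
        nlinarith
      omega
  · rw [hs] at hqv
    simp only [g] at hqv
    nlinarith [sq_nonneg (2 * S.x v - 9)]
  · rw [hs] at hqv
    simp only [g] at hqv
    nlinarith [sq_nonneg (2 * S.x v - 11)]

lemma lt_s (u : Fin 20) : S.x u < S.s := lt_of_le_of_ne (S.le_s u) (S.no_top u)

lemma nonneg (u : Fin 20) : 0 ≤ S.x u := by
  have := S.lb u
  by_contra hc
  have h1 : S.x u = -1 := by omega
  obtain ⟨w, _, hw⟩ := S.leaf h1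
  exact S.no_top w hw

end Sys
end Pool.Agent.X7.Pseudo
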